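import Pool.Agent.Helper53.UV.Par
import Pool.Agent.Helper56.BR.LSP

/-!
# Packet UV-LMV (project UR2, MP_c578c8_lc): the functions of the machines are computed in linear space
-/

set_option autoImplicit false

namespace Pool.Agent.Helper26.UV

open Pool.Agent.Helper65.LinSpace Pool.Agent.Helper78.Mpc
open Pool.Agent.Helper53.UV
open Pool.Agent.Helper65.BR (Mach Prm prm bT lT)
open Pool.Agent.Helper65.RT (CT)
open Pool.Agent.Helper56.BR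

section

variable {α : Type} [Ctx α] {e x y T p ty G : α → ℕ}

theorem ls_nxV (he : LS e) (hx : LS x) (hy : LS y) (hT : LS T) (ht : LS ty) (hG : LS G)
    (hG2 : LS (fun a => 2 ^ G a)) {q d : α → ℕ} (hq : LS q) (hd : LS d) :
    LS (fun a => nxV (prm (e a) (x a) (y a) (T a) (p a)) (ty a) (G a) (q a) (d a)) := by
  unfold nxV
  refine LS.ifz ht (ls_nxN he hx hy hT hq hd) (LS.ifz (ls_rdg he hx hT hq)
    (ls_nxN he hx hy hT hq (LS.const 1)) (LS.capN (ls_bT 0 (LS.log2 hx) hT)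
      (LS.ifz hd (LS.const 0) (LS.add (LS.mul ?_ hG2) (LS.sub hd (LS.const 1))))))
  exact LS.divPow (q := fun _ => 2) (LS.const 2) hq hG

theorem ls_rdV (he : LS e) (hx : LS x) (hy : LS y) (hT : LS T) (ht : LS ty) (hG : LS G)
    {q c : α → ℕ} (hq : LS q) (hc : LS c) :
    LS (fun a => rdV (prm (e a) (x a) (y a) (T a) (p a)) (ty a) (G a) (q a) (c a)) := by
  have hn := ls_nxN (p := p) he hx hy hT hq hc
  unfold rdV
  refine LS.ifz ht (LS.capN hG hc) (LS.ifz (ls_rdg he hx hT hq) (LS.const 0)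
    (LS.ifz (LS.eq01 ?_ ?_) (LS.const 0) (LS.add ?_ (LS.const 1))))
  · exact LS.divPow (q := fun _ => 2) (LS.const 2) hn hG
  · exact LS.divPow (q := fun _ => 2) (LS.const 2) hq hG
  · exact LS.modPow (q := fun _ => 2) (LS.const 2) hn hG

end

theorem gLMV : GoalLMV := by
  intro hL
  obtain ⟨-, hn, hT, hp, hG, -⟩ := hL
  have hx : LS (fun z : Qn => z.2.1) := by fun_prop
  have hy : LS (fun z : Qn => z.2.2.1) := by fun_prop
  have he : LS (fun z : Qn => z.1 / 2) := by fun_prop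
  have ht : LS (fun z : Qn => z.1 % 2) := by fun_prop
  have hG2 : LS (fun z : Qn => 2 ^ bT (Qn.n z) (Qn.T z) 3) := by
    refine LS.pow_of_le (f := fun _ => 2) (g := fun z : Qn => bT (Qn.n z) (Qn.T z) 3)
      (LS.const 2) hG (Pool.Agent.Helper65.RT.ls_CT hx) fun z => ?_
    refine two_pow_CT ?_
    have h := bT_le (Qn.n z) (Qn.T z) 3
    have h5 : Qn.n z = Nat.log 2 z.2.1 := rfl
    rw [h5] at h ⊢
    omega
  -- the contexts
  have c1 : ∀ {f : Qn → ℕ}, LS f → LS (fun z : Qn × ℕ => f z.1) := fun h => LS.comp h LS.fst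
  have c2 : ∀ {f : Qn → ℕ}, LS f → LS (fun z : Qn × ℕ × ℕ => f z.1) := fun h => LS.comp h LS.fst
  have c4 : ∀ {f : Qn → ℕ}, LS f → LS (fun z : Qn × ℕ × ℕ × ℕ × ℕ => f z.1) :=
    fun h => LS.comp h LS.fst
  have hpB : LS (fun z : Qn => 2 ^ (bT (Nat.log 2 z.2.1) (Qn.T z) 0 + 1)) := ls_pB 0 hx hT
  refine ⟨?_, ?_, ?_, ?_, ?_, ?_, ?_, ?_, ?_⟩
  · exact LS.add (ls_bT 0 hn hT) (LS.const 1)
  · exact LS.add (ls_bT 1 hn hT) (LS.const 1)
  · exact LS.add hG (LS.const 1)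
  · exact ls_rdN (y := fun z : Qn × ℕ => z.1.2.2.1) (p := fun z : Qn × ℕ => Qn.p z.1)
      (c1 he) (c1 hx) (c1 hT) LS.snd
  · exact ls_rdV (p := fun z : Qn × ℕ × ℕ => Qn.p z.1) (c2 he) (c2 hx) (c2 hy) (c2 hT) (c2 ht)
      (c2 hG) (q := fun z : Qn × ℕ × ℕ => z.2.1) (c := fun z : Qn × ℕ × ℕ => z.2.2)
      (by fun_prop) (by fun_prop)
  · have h1 := ls_nxV (p := fun z : Qn × ℕ × ℕ => Qn.p z.1) (c2 he) (c2 hx) (c2 hy) (c2 hT)
      (c2 ht) (c2 hG) (c2 hG2) (q := fun z : Qn × ℕ × ℕ => z.2.1)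
      (d := fun z : Qn × ℕ × ℕ => z.2.2) (by fun_prop) (by fun_prop)
    exact ls_sil (c2 he) (c2 hx) (c2 hy) (c2 hT) (c2 hp) h1 (c2 hpB)
  · have h1 := ls_nxV (p := fun z : Qn × ℕ × ℕ × ℕ × ℕ => Qn.p z.1) (c4 he) (c4 hx) (c4 hy)
      (c4 hT) (c4 ht) (c4 hG) (c4 hG2) (q := fun z : Qn × ℕ × ℕ × ℕ × ℕ => z.2.1)
      (d := fun z : Qn × ℕ × ℕ × ℕ × ℕ => z.2.2.1) (by fun_prop) (by fun_prop)
    have u4 : LS (fun z : Qn × ℕ × ℕ × ℕ × ℕ => z.2.2.2.1) := by fun_prop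
    have v4 : LS (fun z : Qn × ℕ × ℕ × ℕ × ℕ => z.2.2.2.2) := by fun_prop
    have q4 : LS (fun z : Qn × ℕ × ℕ × ℕ × ℕ => z.2.1) := by fun_prop
    have h2 := ls_wrN (y := fun z : Qn × ℕ × ℕ × ℕ × ℕ => z.1.2.2.1)
      (p := fun z : Qn × ℕ × ℕ × ℕ × ℕ => Qn.p z.1) (c4 he) (c4 hx) (c4 hT) h1 u4 v4
    exact LS.capN (ls_bT 1 (LS.log2 (c4 hx)) (c4 hT)) (ls_wil (c4 he) (c4 hx) (c4 hy) (c4 hT)
      (c4 hp) h1 u4 (LS.ifz (ls_accN q4) h2 v4) (c4 hpB))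
  · exact ls_sil he hx hy hT hp (ls_s0 (y := fun z : Qn => z.2.2.1) he hx hT hp) hpB
  · exact ls_wil (c1 he) (c1 hx) (c1 hy) (c1 hT) (c1 hp)
      (ls_s0 (y := fun z : Qn × ℕ => z.1.2.2.1) (c1 he) (c1 hx) (c1 hT) (c1 hp)) LS.snd
      (LS.const 1) (c1 hpB)

end Pool.Agent.Helper26.UV
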